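import Pool.Agent.Y418.PT.Ind

/-!
# Maximal algebras with property (T): there are exactly `2 ^ 𝔠` of them, all of cardinality `𝔠`

The definitions (`Cantor`, `lam`, `IsAlg`, `PropT`, `IsMaxT`, `propT`) are those of the starting
file `Pool.Agent.Results.MP_898cae_lc.PropTEqContinuum`; `Pool.Agent.Y418.PT.classes B` is the set
of the classes modulo null sets of the members of `B`.
-/

set_option autoImplicit false

open MeasureTheory Cardinal Set
open Pool.Agent.Results.MP_898cae_lc.PropTEqContinuum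
open Pool.Agent.Y418.PT

namespace Pool.Agent.Results.MP_898cae_lc.ManyMaximal

/-- In ZFC: `prop_(T) = 𝔠`; every maximal subalgebra of `Bor(2^ℕ)` with property (T) has
cardinality `𝔠` and contains all Borel null sets; every subalgebra with property (T) is contained
in a maximal one; there are exactly `2 ^ 𝔠` maximal ones, and also exactly `2 ^ 𝔠` maximal ones
which have `𝔠` classes modulo null sets; and there are `2 ^ 𝔠` subalgebras with property (T) no two
of which are contained in a common subalgebra with property (T). -/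
theorem result :
    propT = 𝔠 ∧
    (∀ B : Set (Set Cantor), IsMaxT B →
      #B = 𝔠 ∧ ∀ A : Set Cantor, MeasurableSet[borel Cantor] A → lam A = 0 → A ∈ B) ∧
    (∀ C : Set (Set Cantor), IsAlg C → PropT C → ∃ B : Set (Set Cantor), C ⊆ B ∧ IsMaxT B) ∧
    #{B : Set (Set Cantor) | IsMaxT B} = 2 ^ 𝔠 ∧
    #{B : Set (Set Cantor) | IsMaxT B ∧ #(classes B) = 𝔠} = 2 ^ 𝔠 ∧
    (∃ C : (Cantor → Bool) → Set (Set Cantor), (∀ f, IsAlg (C f) ∧ PropT (C f)) ∧
      ∀ f g, f ≠ g → ¬ ∃ B : Set (Set Cantor), PropT B ∧ C f ⊆ B ∧ C g ⊆ B) := by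
  refine ⟨(PropTEqContinuum.result).1, fun B hB => ⟨mk_of_isMaxT hB, fun A hA h0 => null_mem hB hA h0⟩,
    fun C h1 h2 => exists_max_above h1 h2, ?_, ?_, ?_⟩
  · exact le_antisymm mk_max_le
      (le_mk_max.trans (Cardinal.mk_le_mk_of_subset fun B hB => hB.1))
  · exact le_antisymm ((Cardinal.mk_le_mk_of_subset fun B hB => hB.1).trans mk_max_le) le_mk_max
  · refine ⟨fun f => BB (II f), fun f => ⟨isAlg_BB (good_II f), propT_BB (good_II f)⟩, ?_⟩
    rintro f g hfg ⟨B, hB, h1, h2⟩
    obtain ⟨x, hx⟩ := Function.ne_iff.1 hfg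
    exact incompatible hB (SS_cover hx) (h1 (AA_mem (SS_mem_II f x subset_rfl)))
      (h2 (AA_mem (SS_mem_II g x subset_rfl)))

end Pool.Agent.Results.MP_898cae_lc.ManyMaximal
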