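import Mathlib
import Pool.Agent.Results.MP_898cae_lc.PropTEqContinuum

/-!
# Maximal algebras of Borel sets with a null-invariant property have the size of the continuum

Let `X` be an uncountable standard Borel space, `μ` any measure on `X` without atoms, and `P` any
property of families of subsets of `X` which passes from a family to its hull modulo null sets.
Every maximal algebra of measurable sets with `P` is closed under changes on null sets, contains all
null sets, and has exactly `𝔠` elements; so does a maximal algebra above any given algebra. For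
property (T), and for all variants of property (T) with other bounds (which may be arbitrary
functions of the level, of the coordinate and of the measure of the atom) and other measures without
atoms, this gives in ZFC that the least size of a maximal algebra is `𝔠`.
-/

set_option autoImplicit false

open MeasureTheory Cardinal Set

namespace Pool.Agent.Results.MP_898cae_lc.NullInvariant

open Pool.Agent.Results.MP_898cae_lc.PropTEqContinuum

theorem mk_cantor : #Cantor = 𝔠 := by simp [Cantor]

theorem not_countable_cantor : ¬ Countable Cantor := by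
  intro h
  have h5 : #Cantor ≤ ℵ₀ := Cardinal.mk_le_aleph0_iff.2 h
  rw [mk_cantor] at h5
  exact absurd h5 (not_le.2 Cardinal.aleph0_lt_continuum)

section General

variable {X : Type} [MeasurableSpace X]

/-- `B` is an algebra of measurable sets which contains all members of `C` and the empty set. -/
structure IsAlgebra (C B : Set (Set X)) : Prop where
  meas : ∀ A ∈ B, MeasurableSet A
  base : C ⊆ B
  empty : ∅ ∈ B
  compl : ∀ A ∈ B, Aᶜ ∈ B
  union : ∀ A ∈ B, ∀ A' ∈ B, A ∪ A' ∈ B

/-- All measurable sets which agree with a member of `B` up to a `μ`-null set. -/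
def nullHull (μ : Measure X) (B : Set (Set X)) : Set (Set X) :=
  {A | MeasurableSet A ∧ ∃ A' ∈ B, A =ᵐ[μ] A'}

/-- The property `P` of families of sets passes to the hull modulo null sets. -/
def NullInv (μ : Measure X) (P : Set (Set X) → Prop) : Prop := ∀ B, P B → P (nullHull μ B)

/-- `B` is maximal among the algebras of measurable sets above `C` with property `P`. -/
def IsMax (C : Set (Set X)) (P : Set (Set X) → Prop) (B : Set (Set X)) : Prop :=
  Maximal (fun B => IsAlgebra C B ∧ P B) B

theorem isAlgebra_nullHull {μ : Measure X} {C B : Set (Set X)} (hB : IsAlgebra C B) :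
    IsAlgebra C (nullHull μ B) where
  meas := fun _ hA => hA.1
  base := fun A hA => ⟨hB.meas A (hB.base hA), A, hB.base hA, Filter.EventuallyEq.rfl⟩
  empty := ⟨MeasurableSet.empty, ∅, hB.empty, Filter.EventuallyEq.rfl⟩
  compl := by
    rintro A ⟨h1, A', h2, h3⟩
    exact ⟨h1.compl, A'ᶜ, hB.compl _ h2, h3.compl⟩
  union := by
    rintro A ⟨h1, A', h2, h3⟩ D ⟨h4, D', h5, h6⟩
    exact ⟨h1.union h4, A' ∪ D', hB.union _ h2 _ h5, h3.union h6⟩

/-- A maximal algebra with a null-invariant property is closed under changes on null sets. -/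
theorem nullHull_subset {μ : Measure X} {C B : Set (Set X)} {P : Set (Set X) → Prop}
    (hP : NullInv μ P) (hB : IsMax C P B) : nullHull μ B ⊆ B :=
  hB.2 (y := nullHull μ B) ⟨isAlgebra_nullHull hB.1.1, hP B hB.1.2⟩
    (fun A hA => ⟨hB.1.1.meas A hA, A, hA, Filter.EventuallyEq.rfl⟩)

/-- It contains all null sets. -/
theorem null_mem {μ : Measure X} {C B : Set (Set X)} {P : Set (Set X) → Prop}
    (hP : NullInv μ P) (hB : IsMax C P B) {N : Set X} (hN : MeasurableSet N) (h0 : μ N = 0) :
    N ∈ B :=
  nullHull_subset hP hB ⟨hN, ∅, hB.1.1.empty, ae_eq_empty.2 h0⟩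

/-- It has exactly `𝔠` members. -/
theorem mk_eq [StandardBorelSpace X] [Uncountable X] {μ : Measure X} (hμ : ∀ x, μ {x} = 0)
    {C B : Set (Set X)} {P : Set (Set X) → Prop} (hP : NullInv μ P) (hB : IsMax C P B) :
    #B = 𝔠 := by
  apply le_antisymm
  · have h1 : B ⊆ {A : Set X | MeasurableSet A} := fun A hA => hB.1.1.meas A hA
    refine (Cardinal.mk_le_mk_of_subset h1).trans ?_
    have : MeasurableSpace.CountablyGenerated X := inferInstance
    obtain ⟨s, hs, hs'⟩ := this.isCountablyGenerated
    rw [hs']
    exact MeasurableSpace.cardinal_measurableSet_le_continuum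
      ((Cardinal.le_aleph0_iff_set_countable.2 hs).trans Cardinal.aleph0_le_continuum)
  · have h1 : Function.Injective fun x : X =>
        (⟨{x}, null_mem hP hB (MeasurableSet.singleton x) (hμ x)⟩ : B) := by
      intro x y h
      have := congrArg Subtype.val h
      simpa using this
    have h2 := Cardinal.mk_le_of_injective h1
    have hX : ¬ Countable X := by
      rw [not_countable_iff]
      infer_instance
    have e := PolishSpace.measurableEquivOfNotCountable hX not_countable_cantor
    have h3 : #X = 𝔠 := by
      rw [Cardinal.mk_congr e.toEquiv]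
      exact mk_cantor
    rwa [h3] at h2

end General

/-- Generalised property (T) of a family `B` of subsets of the Cantor space for a measure `μ`: for
all `A_1, ..., A_p` in `B` and `ε > 0` there is `n > 0` such that for every atom `U` of level `n` and
every `A_i`: `μ (A_i ∩ U)` or `μ (U \ A_i)` is at most `f ε n (μ U)`, and
`|μ (A_i ∩ U ∩ V_m^0) - μ (A_i ∩ U ∩ V_m^1)| ≤ g ε n m (μ U)` for all `m > n`. -/
def PropTGen (μ : Measure Cantor) (f : ℝ → ℕ → ℝ → ℝ) (g : ℝ → ℕ → ℕ → ℝ → ℝ)
    (B : Set (Set Cantor)) : Prop :=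
  ∀ F : Finset (Set Cantor), (∀ A ∈ F, A ∈ B) → ∀ ε : ℝ, 0 < ε → ∃ n : ℕ, 0 < n ∧
    ∀ x : Cantor, ∀ A ∈ F,
      (μ.real (A ∩ atom n x) ≤ f ε n (μ.real (atom n x)) ∨
        μ.real (atom n x \ A) ≤ f ε n (μ.real (atom n x))) ∧
      ∀ m > n, |μ.real (A ∩ atom n x ∩ V m false) - μ.real (A ∩ atom n x ∩ V m true)| ≤
        g ε n m (μ.real (atom n x))

/-- All generalised properties (T) are null-invariant. -/
theorem propTGen_nullInv (μ : Measure Cantor) (f : ℝ → ℕ → ℝ → ℝ) (g : ℝ → ℕ → ℕ → ℝ → ℝ) :
    NullInv μ (PropTGen μ f g) := by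
  classical
  intro B hB F hF ε hε
  have hF' : ∀ A : Set Cantor, ∃ A' : Set Cantor, A ∈ F → A' ∈ B ∧ A =ᵐ[μ] A' := by
    intro A
    by_cases hA : A ∈ F
    · obtain ⟨-, A', h1, h2⟩ := hF A hA
      exact ⟨A', fun _ => ⟨h1, h2⟩⟩
    · exact ⟨A, fun h => absurd h hA⟩
  choose φ hφ using hF'
  obtain ⟨n, hn, h⟩ := hB (F.image φ) (by
    intro A hA
    obtain ⟨D, hD, rfl⟩ := Finset.mem_image.1 hA
    exact (hφ D hD).1) ε hε
  refine ⟨n, hn, fun x A hA => ?_⟩
  obtain ⟨h1, h2⟩ := h x (φ A) (Finset.mem_image_of_mem φ hA)
  have hA' := (hφ A hA).2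
  have e1 : μ.real (A ∩ atom n x) = μ.real (φ A ∩ atom n x) :=
    measureReal_congr (hA'.inter Filter.EventuallyEq.rfl)
  have e2 : μ.real (atom n x \ A) = μ.real (atom n x \ φ A) :=
    measureReal_congr (Filter.EventuallyEq.rfl.diff hA')
  refine ⟨by rw [e1, e2]; exact h1, fun m hm => ?_⟩
  have e3 : ∀ b, μ.real (A ∩ atom n x ∩ V m b) = μ.real (φ A ∩ atom n x ∩ V m b) := fun b =>
    measureReal_congr ((hA'.inter Filter.EventuallyEq.rfl).inter Filter.EventuallyEq.rfl)
  rw [e3, e3]
  exact h2 m hm

/-- Maximal subalgebras in the sense of the problem are maximal in the general sense. -/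
theorem isMax_of_isMaxT {B : Set (Set Cantor)} (hB : IsMaxT B) :
    IsMax {A : Set Cantor | IsClopen A} PropT B := by
  have conv : ∀ D : Set (Set Cantor), IsAlgebra {A : Set Cantor | IsClopen A} D ↔ IsAlg D := by
    intro D
    constructor
    · intro h
      refine ⟨fun A hA => ?_, fun A hA => h.base hA, h.compl, h.union⟩
      rw [← BorelSpace.measurable_eq (α := Cantor)]
      exact h.meas A hA
    · intro h
      refine ⟨fun A hA => ?_, fun A hA => h.clopen A hA, h.clopen ∅ isClopen_empty, h.compl, h.union⟩
      have := h.borel A hA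
      rwa [← BorelSpace.measurable_eq (α := Cantor)] at this
  refine ⟨⟨(conv B).2 hB.1.1, hB.1.2⟩, ?_⟩
  intro D hD hBD
  exact hB.2 (y := D) ⟨(conv D).1 hD.1, hD.2⟩ hBD

/-- **ZFC proves `prop_(T) = 𝔠`, for a general reason.**
(1) Let `X` be an uncountable standard Borel space, `μ` a measure on `X` without atoms, `C` any
family of sets, `P` any property of families of sets that passes to hulls modulo `μ`-null sets. Then
every maximal algebra `B` of measurable sets above `C` with property `P` contains every measurable
set which differs from a member of `B` by a null set, contains all measurable null sets, and has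
exactly `𝔠` members.
(2) Every maximal algebra above any family `C` of Borel sets with a generalised property (T), for
any measure without atoms on the Cantor space and any bounds `f`, `g`, has exactly `𝔠` members.
(3) Every maximal subalgebra of `Bor(2^ℕ)` with property (T) contains all Borel null sets and has
exactly `𝔠` members, and `prop_(T) = 𝔠`. -/
theorem result :
    (∀ (X : Type) [MeasurableSpace X] [StandardBorelSpace X] [Uncountable X] (μ : Measure X),
      (∀ x, μ {x} = 0) → ∀ (C : Set (Set X)) (P : Set (Set X) → Prop), NullInv μ P →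
      ∀ B : Set (Set X), IsMax C P B →
        nullHull μ B ⊆ B ∧ (∀ N : Set X, MeasurableSet N → μ N = 0 → N ∈ B) ∧ #B = 𝔠) ∧
    (∀ μ : Measure Cantor, (∀ x, μ {x} = 0) → ∀ (C : Set (Set Cantor)) (f : ℝ → ℕ → ℝ → ℝ)
      (g : ℝ → ℕ → ℕ → ℝ → ℝ) (B : Set (Set Cantor)), IsMax C (PropTGen μ f g) B → #B = 𝔠) ∧
    (∀ B : Set (Set Cantor), IsMaxT B →
      (∀ N : Set Cantor, MeasurableSet N → lam N = 0 → N ∈ B) ∧ #B = 𝔠) ∧
    propT = 𝔠 := by
  have hPT : NullInv lam PropT := by
    have h := propTGen_nullInv lam (fun ε n u => ε * u / n) (fun ε _ m u => ε * u / m)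
    exact h
  refine ⟨?_, ?_, ?_, PropTEqContinuum.result.1⟩
  · intro X _ _ _ μ hμ C P hP B hB
    exact ⟨nullHull_subset hP hB, fun N hN h0 => null_mem hP hB hN h0, mk_eq hμ hP hB⟩
  · intro μ hμ C f g B hB
    have : Uncountable Cantor := by
      rw [← not_countable_iff]
      exact not_countable_cantor
    exact mk_eq hμ (propTGen_nullInv μ f g) hB
  · intro B hB
    exact ⟨fun N hN h0 => null_mem hPT (isMax_of_isMaxT hB) hN h0, mk_of_isMaxT hB⟩

end Pool.Agent.Results.MP_898cae_lc.NullInvariant
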